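import Mathlib
import Pool.Agent.Helper20.Div2

set_option autoImplicit false

/-!
# Quotients of semi-rational groups are semi-rational

For a word `w` in the free group on `r` letters and a finite group `G` let `N_{w,G}(g)` be the
number of `r`-tuples of `G` at which the word map of `w` takes the value `g`.  The group `G` is
semi-rational if `N_{w,G}` is a generalized character for all `r ≥ 1` and all `w`.
We prove that every quotient of a finite semi-rational group is semi-rational.

Outline: for `χ ∈ Irr(G/N)`, inflated to `G`, one has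
`⟨N_{w,G}, χ⟩_G = |N|^(r-1) ⟨N_{w,G/N}, χ⟩_{G/N}`, so the right-hand coefficient is rational
(and an integer if `r = 1`).  For `r ≥ 2` the order of the centralizer of `q` divides
`N_{w,Q}(q)`, hence `⟨N_{w,Q}, χ⟩` is an algebraic integer, so it is an integer.
-/

namespace Pool.Agent.Results.MP_405423_al.QuotientSemirational

open scoped ComplexConjugate

/-- `N_{w,G}(g)`: the number of `r`-tuples of elements of `G` at which the word map of
`w ∈ F_r` takes the value `g`. -/
noncomputable def wordCount {r : ℕ} (w : FreeGroup (Fin r)) (G : Type*) [Group G] (g : G) : ℕ :=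
  Nat.card {t : Fin r → G // FreeGroup.lift t w = g}

/-- The coefficient `⟨f, χ⟩ = |G|⁻¹ ∑_g f(g) conj(χ(g))` where `χ` is the character of `ρ`. -/
noncomputable def coeff {G : Type*} [Group G] (f : G → ℂ) {n : ℕ}
    (ρ : Representation ℂ G (Fin n → ℂ)) : ℂ :=
  (Nat.card G : ℂ)⁻¹ * ∑ᶠ g : G, f g * conj (ρ.character g)

/-- `f` is a generalized character: its coefficient at every irreducible complex
character is a rational integer. -/
def IsGeneralizedCharacter {G : Type*} [Group G] (f : G → ℂ) : Prop :=
  ∀ (n : ℕ) (ρ : Representation ℂ G (Fin n → ℂ)), ρ.IsIrreducible → ∃ z : ℤ, coeff f ρ = z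

/-- `G` is semi-rational: `N_{w,G}` is a generalized character for all `r ≥ 1` and `w ∈ F_r`. -/
def SemiRational (G : Type*) [Group G] : Prop :=
  ∀ r : ℕ, 1 ≤ r → ∀ w : FreeGroup (Fin r),
    IsGeneralizedCharacter (fun g : G => (wordCount w G g : ℂ))

/-! ### Character values are algebraic integers -/

lemma isIntegral_character {G : Type*} [Group G] [Finite G] {n : ℕ}
    (ρ : Representation ℂ G (Fin n → ℂ)) (g : G) : IsIntegral ℤ (ρ.character g) := by
  unfold Representation.character
  rw [Module.End.trace_eq_sum_roots_charpoly_of_splits (IsAlgClosed.splits (ρ g).charpoly)]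
  apply IsIntegral.multiset_sum
  intro x hx
  have hx' : Module.End.HasEigenvalue (ρ g) x := by
    rw [Module.End.hasEigenvalue_iff_isRoot_charpoly]
    exact (Polynomial.mem_roots'.mp hx).2
  obtain ⟨v, hv⟩ := hx'.exists_hasEigenvector
  have hpow : ∀ k : ℕ, (ρ g ^ k) v = x ^ k • v := by
    intro k
    induction k with
    | zero => simp
    | succ k ih =>
      rw [pow_succ', Module.End.mul_apply, ih, map_smul, hv.apply_eq_smul, smul_smul, pow_succ]
  have h1 := hpow (Nat.card G)
  rw [← map_pow, pow_card_eq_one', map_one, Module.End.one_apply] at h1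
  have h2 : x ^ (Nat.card G) = 1 := by
    have h3 : (x ^ (Nat.card G) - 1) • v = 0 := by
      rw [sub_smul, one_smul, ← h1, sub_self]
    rcases smul_eq_zero.mp h3 with h | h
    · exact sub_eq_zero.mp h
    · exact absurd h hv.2
  refine IsIntegral.of_pow (Nat.card_pos (α := G)) ?_
  rw [h2]
  exact isIntegral_one

lemma isIntegral_conj_character {G : Type*} [Group G] [Finite G] {n : ℕ}
    (ρ : Representation ℂ G (Fin n → ℂ)) (g : G) : IsIntegral ℤ (conj (ρ.character g)) := by
  have h := isIntegral_character ρ g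
  exact h.map (starRingEnd ℂ).toIntAlgHom

/-! ### Inflation keeps irreducibility -/

lemma irreducible_comp {G Q : Type*} [Group G] [Group Q] (f : G →* Q)
    (hf : Function.Surjective f) {n : ℕ} (ρ : Representation ℂ Q (Fin n → ℂ))
    (hρ : ρ.IsIrreducible) :
    Representation.IsIrreducible (ρ.comp f : Representation ℂ G (Fin n → ℂ)) := by
  have e : Subrepresentation (ρ.comp f : Representation ℂ G (Fin n → ℂ)) ≃o
      Subrepresentation ρ :=
    { toFun := fun s => ⟨s.toSubmodule, fun q v hv => by
        obtain ⟨g, rfl⟩ := hf q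
        exact s.apply_mem_toSubmodule g hv⟩
      invFun := fun s => ⟨s.toSubmodule, fun g v hv => s.apply_mem_toSubmodule (f g) hv⟩
      left_inv := fun s => rfl
      right_inv := fun s => rfl
      map_rel_iff' := Iff.rfl }
  exact e.isSimpleOrder_iff.mpr hρ

/-! ### Sum manipulations -/

lemma sum_wordCount {G : Type*} [Group G] [Fintype G] {r : ℕ} (w : FreeGroup (Fin r))
    (F : G → ℂ) :
    ∑ g : G, (wordCount w G g : ℂ) * F g = ∑ t : Fin r → G, F (FreeGroup.lift t w) := by
  classical
  rw [← Finset.sum_fiberwise (s := (Finset.univ : Finset (Fin r → G)))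
    (g := fun t => FreeGroup.lift t w)]
  refine Finset.sum_congr rfl ?_
  intro g _
  have h1 : ∀ t ∈ (Finset.univ : Finset (Fin r → G)).filter (fun t => FreeGroup.lift t w = g),
      F (FreeGroup.lift t w) = F g := by
    intro t ht
    rw [(Finset.mem_filter.mp ht).2]
  rw [Finset.sum_congr rfl h1, Finset.sum_const, nsmul_eq_mul]
  congr 2
  unfold wordCount
  rw [Nat.card_eq_fintype_card, Fintype.card_subtype]

lemma sum_comp_mk {G : Type*} [Group G] [Fintype G] (N : Subgroup G) [N.Normal]
    [Fintype (G ⧸ N)] (r : ℕ) (Φ : (Fin r → G ⧸ N) → ℂ) :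
    ∑ t : Fin r → G, Φ (fun i => (QuotientGroup.mk (t i) : G ⧸ N)) =
      (Nat.card N : ℂ) ^ r * ∑ s : Fin r → G ⧸ N, Φ s := by
  classical
  have : Fintype N := Fintype.ofFinite N
  let e : G ≃ (G ⧸ N) × N := Subgroup.groupEquivQuotientProdSubgroup
  have he : ∀ g : G, (e g).1 = (QuotientGroup.mk g : G ⧸ N) := by
    intro g
    rfl
  let E : (Fin r → G) ≃ (Fin r → G ⧸ N) × (Fin r → N) :=
    (Equiv.arrowCongr (Equiv.refl _) e).trans (Equiv.arrowProdEquivProdArrow _ _ _)
  have hE : ∀ t : Fin r → G, (E t).1 = fun i => (QuotientGroup.mk (t i) : G ⧸ N) := by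
    intro t
    funext i
    exact he (t i)
  calc ∑ t : Fin r → G, Φ (fun i => (QuotientGroup.mk (t i) : G ⧸ N))
      = ∑ t : Fin r → G, Φ (E t).1 := by
        refine Finset.sum_congr rfl ?_
        intro t _
        rw [hE]
    _ = ∑ p : (Fin r → G ⧸ N) × (Fin r → N), Φ p.1 := Equiv.sum_comp E (fun p => Φ p.1)
    _ = ∑ s : Fin r → G ⧸ N, ∑ _n : Fin r → N, Φ s := Fintype.sum_prod_type _
    _ = (Nat.card N : ℂ) ^ r * ∑ s : Fin r → G ⧸ N, Φ s := by
        simp only [Finset.sum_const, nsmul_eq_mul, Finset.card_univ, Fintype.card_fun,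
          Fintype.card_fin, Nat.card_eq_fintype_card, Nat.cast_pow]
        rw [Finset.mul_sum]

lemma lift_mk {G : Type*} [Group G] (N : Subgroup G) [N.Normal] {r : ℕ}
    (w : FreeGroup (Fin r)) (t : Fin r → G) :
    (QuotientGroup.mk (FreeGroup.lift t w) : G ⧸ N) =
      FreeGroup.lift (fun i => (QuotientGroup.mk (t i) : G ⧸ N)) w := by
  have h : (QuotientGroup.mk' N).comp (FreeGroup.lift t) =
      FreeGroup.lift (fun i => (QuotientGroup.mk (t i) : G ⧸ N)) := by
    ext i
    simp
  exact DFunLike.congr_fun h w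

/-- The key identity between the coefficients. -/
lemma coeff_inflation {G : Type*} [Group G] [Finite G] (N : Subgroup G) [N.Normal] {r : ℕ}
    (w : FreeGroup (Fin r)) {n : ℕ} (ρ : Representation ℂ (G ⧸ N) (Fin n → ℂ)) :
    (Nat.card N : ℂ) * coeff (fun g : G => (wordCount w G g : ℂ))
        (ρ.comp (QuotientGroup.mk' N) : Representation ℂ G (Fin n → ℂ)) =
      (Nat.card N : ℂ) ^ r * coeff (fun q : G ⧸ N => (wordCount w (G ⧸ N) q : ℂ)) ρ := by
  classical
  have : Fintype G := Fintype.ofFinite G
  have : Fintype (G ⧸ N) := Fintype.ofFinite _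
  let σ : Representation ℂ G (Fin n → ℂ) := ρ.comp (QuotientGroup.mk' N)
  have hchar : ∀ g : G, σ.character g = ρ.character (QuotientGroup.mk g) := fun g => rfl
  change (Nat.card N : ℂ) * coeff (fun g : G => (wordCount w G g : ℂ)) σ = _
  unfold coeff
  rw [finsum_eq_sum_of_fintype, finsum_eq_sum_of_fintype, sum_wordCount, sum_wordCount]
  have h1 : ∑ t : Fin r → G, conj (σ.character (FreeGroup.lift t w)) =
      (Nat.card N : ℂ) ^ r * ∑ s : Fin r → G ⧸ N, conj (ρ.character (FreeGroup.lift s w)) := by
    rw [← sum_comp_mk N r (fun s => conj (ρ.character (FreeGroup.lift s w)))]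
    refine Finset.sum_congr rfl ?_
    intro t _
    rw [hchar, lift_mk]
  rw [h1]
  have hcard : (Nat.card G : ℂ) = (Nat.card (G ⧸ N) : ℂ) * (Nat.card N : ℂ) := by
    rw [← Nat.cast_mul, ← Subgroup.card_eq_card_quotient_mul_card_subgroup]
  have hN : (Nat.card N : ℂ) ≠ 0 := by
    have : Nat.card N ≠ 0 := Nat.card_pos.ne'
    exact_mod_cast this
  have hQ : (Nat.card (G ⧸ N) : ℂ) ≠ 0 := by
    have : Nat.card (G ⧸ N) ≠ 0 := Nat.card_pos.ne'
    exact_mod_cast this
  rw [hcard]
  field_simp

/-- For words in at least two letters the coefficients are algebraic integers, in every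
finite group. -/
lemma isIntegral_coeff {Q : Type*} [Group Q] [Finite Q] {r : ℕ} (hr : 2 ≤ r)
    (w : FreeGroup (Fin r)) {n : ℕ} (ρ : Representation ℂ Q (Fin n → ℂ)) :
    IsIntegral ℤ (coeff (fun q : Q => (wordCount w Q q : ℂ)) ρ) := by
  classical
  have : Fintype Q := Fintype.ofFinite Q
  unfold coeff
  rw [finsum_eq_sum_of_fintype]
  -- group the sum along conjugacy classes
  rw [← Finset.sum_fiberwise (s := (Finset.univ : Finset Q)) (g := fun q => ConjClasses.mk q),
    Finset.mul_sum]
  refine IsIntegral.sum _ ?_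
  intro c _
  obtain ⟨q, rfl⟩ := ConjClasses.exists_rep c
  obtain ⟨m, hm⟩ := Pool.Agent.Helper20.SemiRat.card_centralizer_dvd hr w q
  have hconst : ∀ q' ∈ (Finset.univ : Finset Q).filter
      (fun q' => ConjClasses.mk q' = ConjClasses.mk q),
      (wordCount w Q q' : ℂ) * conj (ρ.character q') =
        (wordCount w Q q : ℂ) * conj (ρ.character q) := by
    intro q' hq'
    have h1 := (Finset.mem_filter.mp hq').2
    rw [ConjClasses.mk_eq_mk_iff_isConj, isConj_comm, isConj_iff] at h1
    obtain ⟨h, hh⟩ := h1
    have h2 : ρ.character q' = ρ.character q := by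
      rw [← hh, Representation.char_conj]
    have h3 : wordCount w Q q' = wordCount w Q q := by
      unfold wordCount
      refine Nat.card_congr ?_
      refine
        { toFun := fun t => ⟨fun i => h⁻¹ * t.1 i * h⁻¹⁻¹, ?_⟩
          invFun := fun t => ⟨fun i => h * t.1 i * h⁻¹, ?_⟩
          left_inv := ?_
          right_inv := ?_ }
      · rw [Pool.Agent.Helper20.SemiRat.lift_conj, t.2, ← hh]; group
      · rw [Pool.Agent.Helper20.SemiRat.lift_conj, t.2, ← hh]
      · intro t
        apply Subtype.ext
        funext i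
        simp only
        group
      · intro t
        apply Subtype.ext
        funext i
        simp only
        group
    rw [h2, h3]
  rw [Finset.sum_congr rfl hconst, Finset.sum_const, nsmul_eq_mul]
  have hclass : ((Finset.univ : Finset Q).filter
      (fun q' => ConjClasses.mk q' = ConjClasses.mk q)).card *
      Nat.card (Subgroup.centralizer ({q} : Set Q)) = Nat.card Q := by
    have h1 : ((Finset.univ : Finset Q).filter
        (fun q' => ConjClasses.mk q' = ConjClasses.mk q)).card =
        Nat.card (MulAction.orbit (ConjAct Q) q) := by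
      rw [Nat.card_eq_fintype_card, ← Set.toFinset_card]
      congr 1
      ext q'
      simp only [Finset.mem_filter, Finset.mem_univ, true_and, Set.mem_toFinset]
      rw [ConjAct.mem_orbit_conjAct, ConjClasses.mk_eq_mk_iff_isConj]
    have h2 : Nat.card (Subgroup.centralizer ({q} : Set Q)) =
        Nat.card (MulAction.stabilizer (ConjAct Q) q) := by
      exact (Subgroup.nat_card_centralizer_nat_card_stabilizer q)
    rw [h1, h2, ← Nat.card_prod]
    have := Nat.card_congr (MulAction.orbitProdStabilizerEquivGroup (ConjAct Q) q)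
    rw [this]
    exact Nat.card_congr (ConjAct.ofConjAct.toEquiv)
  have hwc : wordCount w Q q = Nat.card (Subgroup.centralizer ({q} : Set Q)) * m := hm
  have hQ : (Nat.card Q : ℂ) ≠ 0 := by
    have : Nat.card Q ≠ 0 := Nat.card_pos.ne'
    exact_mod_cast this
  have hfinal : (Nat.card Q : ℂ)⁻¹ * ((((Finset.univ : Finset Q).filter
      (fun q' => ConjClasses.mk q' = ConjClasses.mk q)).card : ℂ) *
        ((wordCount w Q q : ℂ) * conj (ρ.character q))) = (m : ℂ) * conj (ρ.character q) := by
    rw [hwc]
    push_cast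
    have h4 : ((((Finset.univ : Finset Q).filter
      (fun q' => ConjClasses.mk q' = ConjClasses.mk q)).card : ℂ)) *
        (Nat.card (Subgroup.centralizer ({q} : Set Q)) : ℂ) = (Nat.card Q : ℂ) := by
      exact_mod_cast hclass
    rw [← h4]
    rw [← h4] at hQ
    field_simp
  rw [hfinal]
  refine IsIntegral.mul ?_ (isIntegral_conj_character ρ q)
  have := isIntegral_algebraMap (R := ℤ) (A := ℂ) (x := (m : ℤ))
  simpa using this

/-- **Quotients of finite semi-rational groups are semi-rational.** -/
theorem result {G : Type*} [Group G] [Finite G] (N : Subgroup G) [N.Normal]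
    (hG : SemiRational G) : SemiRational (G ⧸ N) := by
  intro r hr w n ρ hρ
  obtain ⟨z, hz⟩ := hG r hr w n (ρ.comp (QuotientGroup.mk' N))
    (irreducible_comp (QuotientGroup.mk' N) (QuotientGroup.mk'_surjective N) ρ hρ)
  have key := coeff_inflation N w ρ
  rw [hz] at key
  have hN : (Nat.card N : ℂ) ≠ 0 := by
    have : Nat.card N ≠ 0 := Nat.card_pos.ne'
    exact_mod_cast this
  rcases Nat.lt_or_ge r 2 with h | h
  · have hr1 : r = 1 := by omega
    subst hr1
    rw [pow_one] at key
    exact ⟨z, (mul_left_cancel₀ hN key).symm⟩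
  · have hint := isIntegral_coeff h w ρ
    set a := coeff (fun q : G ⧸ N => (wordCount w (G ⧸ N) q : ℂ)) ρ with ha
    have hrat : a = algebraMap ℚ ℂ ((Nat.card N : ℚ) * z / (Nat.card N : ℚ) ^ r) := by
      simp only [eq_ratCast, Rat.cast_div, Rat.cast_mul, Rat.cast_natCast, Rat.cast_intCast,
        Rat.cast_pow]
      rw [key]
      field_simp
    rw [hrat] at hint
    have hint2 : IsIntegral ℤ ((Nat.card N : ℚ) * z / (Nat.card N : ℚ) ^ r) :=
      (isIntegral_algebraMap_iff (algebraMap ℚ ℂ).injective).mp hint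
    obtain ⟨y, hy⟩ := IsIntegrallyClosed.isIntegral_iff.mp hint2
    refine ⟨y, ?_⟩
    rw [hrat, ← hy]
    simp

end Pool.Agent.Results.MP_405423_al.QuotientSemirational
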